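import Pool.Agent.Helper22.G4.Real
import Pool.Agent.Helper22.G4.St.C0

/-! # G4-R9: tangent values of the pages of a gadget -/

namespace Pool.Agent.Helper87.G4

open Submodule Pool.Agent.Helper22.G4

/-- the values of `gX`, `gY` at the gadgets of an operation -/
theorem gXY (d : OpD) : gX d.g0 = d.pb ∧ gY d.g0 = d.pa ∧ gX d.g1 = d.pb ∧ gY d.g1 = d.pc ∧
    gX d.g2 = d.pc ∧ gY d.g2 = d.pd := by
  have h0 : (3 * d.n) / 3 = d.n := by omega
  have h0' : (3 * d.n) % 3 = 0 := by omega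
  have h1 : (3 * d.n + 1) / 3 = d.n := by omega
  have h1' : (3 * d.n + 1) % 3 = 1 := by omega
  have h2 : (3 * d.n + 2) / 3 = d.n := by omega
  have h2' : (3 * d.n + 2) % 3 = 2 := by omega
  simp [gX, gY, OpD.g0, OpD.g1, OpD.g2, OpD.pa, OpD.pb, OpD.pc, OpD.pd, h0, h0', h1, h1', h2, h2']

/-- the operation of a gadget -/
theorem gad_cases {I : NF} {g : ℕ} (hg : g < 3 * I.ops.length) :
    ∃ d ∈ I.opds, g = d.g0 ∨ g = d.g1 ∨ g = d.g2 := by
  obtain ⟨d, hd, hn⟩ := NF.opds_exists (I := I) (n := g / 3) (by omega)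
  refine ⟨d, hd, ?_⟩
  simp only [OpD.g0, OpD.g1, OpD.g2, hn]
  omega

/-- the intervals of the pages of an operation -/
theorem pus {I : NF} {d : OpD} (hd : d ∈ I.opds) :
    (I.PU d.pa 0 d.z ∧ I.PU d.pa d.z d.x ∧ I.PU d.pa d.x I.N) ∧
    (I.PU d.pb 0 d.y ∧ I.PU d.pb d.y d.i ∧ I.PU d.pb d.i d.x ∧ I.PU d.pb d.x I.N) ∧
    (I.PU d.pc 0 d.y ∧ I.PU d.pc d.y d.v ∧ I.PU d.pc d.v I.N) ∧
    (I.PU d.pd 0 d.w ∧ I.PU d.pd d.w I.N) := by
  refine ⟨⟨?_, ?_, ?_⟩, ⟨?_, ?_, ?_, ?_⟩, ⟨?_, ?_, ?_⟩, ?_, ?_⟩ <;>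
    exact NF.pu_iff.2 (Or.inr ⟨d, hd, by simp⟩)

/-- the list of slopes of the gadget `g` -/
def gsl (I : NF) (d : OpD) (k : ℕ) : List (ℕ × Bool) :=
  if k = 0 then [(0, true), (d.y, true), (d.z, false), (d.i, true), (d.x, true), (I.N, true)]
  else if k = 1 then [(0, true), (d.y, true), (d.i, true), (d.v, false), (d.x, true), (I.N, true)]
  else [(0, true), (d.y, true), (d.w, false), (d.v, true), (I.N, true)]

/-- which facets `Fc.G` occur -/
theorem memG {I : NF} (hI : I.OK) {a b g : ℕ} {s : ℕ × Bool}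
    (h : Fc.G I.N a b g s ∈ I.data.fcodes) :
    ∃ d ∈ I.opds, (g = d.g0 ∧ s ∈ gsl I d 0) ∨ (g = d.g1 ∧ s ∈ gsl I d 1) ∨
      (g = d.g2 ∧ s ∈ gsl I d 2) := by
  obtain ⟨s, β⟩ := s
  have hN := (NF.size hI).2.2.1
  rcases NF.mem_fcodes.1 h with h | ⟨a', s', -, -, -, h⟩ | ⟨d, hd, h⟩
  · simp [Fc.G, Fc.Q] at h
  · simp [Fc.G, Fc.F] at h
  · refine ⟨d, hd, ?_⟩
    simp only [OpD.facets, List.mem_cons, List.not_mem_nil, or_false] at h
    have hN0 : I.N ≠ 0 := by omega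
    rcases h with h | h | h | h | h | h | h | h | h | h | h | h | h | h | h | h | h | h | h | h |
      h | h | h | h | h | h | h <;>
    first
    | (exfalso
       simp [Fc.G, Fc.Q, Fc.GX, Fc.GY, Fc.T0] at h
       done)
    | (exfalso
       simp [Fc.G, Fc.GY, Fc.T0] at h
       omega)
    | (simp only [Fc.G, Prod.mk.injEq] at h
       obtain ⟨-, ⟨h1, -⟩, -, h3, h4⟩ := h
       have h6 : g = _ := Nat.succ_injective h4
       subst h1 h6
       cases β <;> simp [gsl] at h3 ⊢)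

/-- all the facets of `gsl` occur -/
theorem Gmem {I : NF} {d : OpD} (hd : d ∈ I.opds) {s : ℕ × Bool} :
    (s ∈ gsl I d 0 → Fc.G I.N (gX d.g0) (gY d.g0) d.g0 s ∈ I.data.fcodes) ∧
    (s ∈ gsl I d 1 → Fc.G I.N (gX d.g1) (gY d.g1) d.g1 s ∈ I.data.fcodes) ∧
    (s ∈ gsl I d 2 → Fc.G I.N (gX d.g2) (gY d.g2) d.g2 s ∈ I.data.fcodes) := by
  obtain ⟨h1, h2, h3, h4, h5, h6⟩ := gXY d
  rw [h1, h2, h3, h4, h5, h6]
  refine ⟨?_, ?_, ?_⟩ <;> intro h <;> refine NF.mem_fcodes.2 (Or.inr (Or.inr ⟨d, hd, ?_⟩)) <;>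
    simp only [gsl, if_true, if_false, one_ne_zero, OfNat.ofNat_ne_zero, OfNat.ofNat_ne_one,
      List.mem_cons, List.not_mem_nil, or_false] at h <;>
    rcases h with rfl | rfl | rfl | rfl | h <;> (try rcases h with rfl | rfl) <;>
    simp [OpD.facets]

theorem g_inj {I : NF} {d e : OpD} (hd : d ∈ I.opds) (he : e ∈ I.opds) :
    (d.g0 = e.g0 → d = e) ∧ (d.g1 = e.g1 → d = e) ∧ (d.g2 = e.g2 → d = e) ∧ d.g0 ≠ e.g1 ∧
      d.g0 ≠ e.g2 ∧ d.g1 ≠ e.g0 ∧ d.g1 ≠ e.g2 ∧ d.g2 ≠ e.g0 ∧ d.g2 ≠ e.g1 := by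
  refine ⟨?_, ?_, ?_, ?_, ?_, ?_, ?_, ?_, ?_⟩ <;> simp only [OpD.g0, OpD.g1, OpD.g2] <;>
    first
    | (intro h; exact NF.opds_inj hd he (by omega))
    | omega

/-- membership for a given operation -/
theorem memG' {I : NF} (hI : I.OK) {d : OpD} (hd : d ∈ I.opds) {a b : ℕ} {s : ℕ × Bool} :
    (Fc.G I.N a b d.g0 s ∈ I.data.fcodes → s ∈ gsl I d 0) ∧
    (Fc.G I.N a b d.g1 s ∈ I.data.fcodes → s ∈ gsl I d 1) ∧
    (Fc.G I.N a b d.g2 s ∈ I.data.fcodes → s ∈ gsl I d 2) := by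
  refine ⟨?_, ?_, ?_⟩ <;> intro h <;> obtain ⟨e, he, h⟩ := memG hI h <;>
    obtain ⟨j0, j1, j2, n1, n2, n3, n4, n5, n6⟩ := g_inj hd he
  · rcases h with ⟨h, h'⟩ | ⟨h, h'⟩ | ⟨h, h'⟩
    · rw [j0 h]; exact h'
    · exact absurd h n1
    · exact absurd h n2
  · rcases h with ⟨h, h'⟩ | ⟨h, h'⟩ | ⟨h, h'⟩
    · exact absurd h n3
    · rw [j1 h]; exact h'
    · exact absurd h n4
  · rcases h with ⟨h, h'⟩ | ⟨h, h'⟩ | ⟨h, h'⟩
    · exact absurd h n5
    · exact absurd h n6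
    · rw [j2 h]; exact h'

section

variable {I : NF} (G : Geo I)

/-- two pages with the same active vertex -/
theorem T_eq {a b i j k l s : ℕ} (h : I.PU a i j) (h' : I.PU b k l) (hs : s ≤ I.N)
    (h1 : i ≤ s) (h2 : s ≤ j) (h3 : k ≤ s) (h4 : s ≤ l)
    (e : G.X a i = G.X b k ∧ G.H a i = G.H b k) : G.T a s = G.T b s := by
  rw [(G.tan a i j h s hs).2.2 ⟨h1, h2⟩, (G.tan b k l h' s hs).2.2 ⟨h3, h4⟩, e.1, e.2]

/-- a vertex of the first page that is not active, but is the active vertex of the second page -/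
theorem T_lt {a b i j k l s : ℕ} (h : I.PU a i j) (h' : I.PU b k l) (hs : s ≤ I.N)
    (h1 : ¬ (i ≤ s ∧ s ≤ j)) (h3 : k ≤ s) (h4 : s ≤ l)
    (e : G.X b k = G.X a i ∧ G.H b k = G.H a i) : G.T a s < G.T b s := by
  rw [(G.tan b k l h' s hs).2.2 ⟨h3, h4⟩, e.1, e.2]
  exact lt_of_le_of_ne (G.tan a i j h s hs).1 (fun h' => h1 ((G.tan a i j h s hs).2.1 h'))

theorem interp {a b c A B : ℝ} (h1 : a ≤ b) (h2 : b ≤ c) (ha : 0 ≤ A + B * a)
    (hc : 0 ≤ A + B * c) : 0 ≤ A + B * b := by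
  rcases le_total 0 B with h | h
  · have := mul_le_mul_of_nonneg_left h1 h
    linarith
  · have := mul_le_mul_of_nonpos_left h2 h
    linarith

theorem al_mono {s s' : ℕ} (h : s ≤ s') (h' : s' ≤ I.N) : G.al s ≤ G.al s' := by
  rcases Nat.lt_or_ge s s' with h1 | h1
  · exact (G.mono s s' h1 h').le
  · rw [le_antisymm h h1]

/-- the inequality holds between two slopes if both pages have the same active vertices -/
theorem seg {a b i j k l p q : ℕ} (h : I.PU a i j) (h' : I.PU b k l) (hq : q ≤ I.N)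
    (h1 : i ≤ p) (h2 : q ≤ j) (h3 : k ≤ p) (h4 : q ≤ l) {t u x y : ℝ}
    (Hp : t * G.T a p + u * G.T b p ≤ y - G.al p * x)
    (Hq : t * G.T a q + u * G.T b q ≤ y - G.al q * x) {s : ℕ} (hp : p ≤ s) (hs : s ≤ q) :
    t * G.T a s + u * G.T b s ≤ y - G.al s * x := by
  have e1 := fun s (hs : s ≤ I.N) (h : i ≤ s ∧ s ≤ j) => (G.tan a i j ‹_› s hs).2.2 h
  have e2 := fun s (hs : s ≤ I.N) (h : k ≤ s ∧ s ≤ l) => (G.tan b k l ‹_› s hs).2.2 h
  rw [e1 p (by omega) (by omega), e2 p (by omega) (by omega)] at Hp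
  rw [e1 q (by omega) (by omega), e2 q (by omega) (by omega)] at Hq
  rw [e1 s (by omega) (by omega), e2 s (by omega) (by omega)]
  have m1 := al_mono G hp (by omega)
  have m2 := al_mono G hs hq
  have := interp (A := y - t * G.H a i - u * G.H b k) (B := t * G.X a i + u * G.X b k - x) m1 m2
    (by linarith) (by linarith)
  linarith

end

/-- G4-R9 (tangent values of the two pages of a gadget). -/
theorem gad_T {I : NF} (hI : I.OK) (G : Geo I) {g s : ℕ} {b : Bool}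
    (hg : Fc.G I.N (gX g) (gY g) g (s, b) ∈ I.data.fcodes) :
    s ≤ I.N ∧ (b = true → G.T (gX g) s = G.T (gY g) s) ∧
      (b = false → G.T (gX g) s < G.T (gY g) s) := by
  obtain ⟨d, hd, h⟩ := memG hI hg
  obtain ⟨x1, y1, x2, y2, x3, y3⟩ := gXY d
  obtain ⟨⟨a1, a2, a3⟩, ⟨b1, b2, b3, b4⟩, ⟨c1, c2, c3⟩, d1, d2⟩ := pus hd
  obtain ⟨k1, k2, k3, k4, k5, k6, k7, k8⟩ := G.keep d hd
  obtain ⟨o1, o2, o3, o4, o5, o6, o7, o8, -⟩ := NF.opd_ok hI hd
  rcases h with ⟨rfl, h⟩ | ⟨rfl, h⟩ | ⟨rfl, h⟩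
  · rw [x1, y1]
    simp only [gsl, if_true, List.mem_cons, List.not_mem_nil, or_false, Prod.mk.injEq] at h
    rcases h with ⟨rfl, rfl⟩ | ⟨rfl, rfl⟩ | ⟨rfl, rfl⟩ | ⟨rfl, rfl⟩ | ⟨rfl, rfl⟩ | ⟨rfl, rfl⟩ <;>
      refine ⟨by omega, fun h => ?_, fun h => ?_⟩ <;> (try (exact absurd h (by decide)))
    · exact (T_eq G a1 b1 (by omega) (by omega) (by omega) (by omega) (by omega) k1).symm
    · exact (T_eq G a1 b1 (by omega) (by omega) (by omega) (by omega) (by omega) k1).symm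
    · exact T_lt G b1 a1 (by omega) (by omega) (by omega) (by omega) k1
    · exact (T_eq G a2 b3 (by omega) (by omega) (by omega) (by omega) (by omega) k2).symm
    · exact (T_eq G a2 b3 (by omega) (by omega) (by omega) (by omega) (by omega) k2).symm
    · exact (T_eq G a3 b4 (by omega) (by omega) (by omega) (by omega) (by omega) k3).symm
  · rw [x2, y2]
    simp only [gsl, if_true, if_false, one_ne_zero, List.mem_cons, List.not_mem_nil,
      or_false, Prod.mk.injEq] at h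
    rcases h with ⟨rfl, rfl⟩ | ⟨rfl, rfl⟩ | ⟨rfl, rfl⟩ | ⟨rfl, rfl⟩ | ⟨rfl, rfl⟩ | ⟨rfl, rfl⟩ <;>
      refine ⟨by omega, fun h => ?_, fun h => ?_⟩ <;> (try (exact absurd h (by decide)))
    · exact (T_eq G c1 b1 (by omega) (by omega) (by omega) (by omega) (by omega) k4).symm
    · exact (T_eq G c1 b1 (by omega) (by omega) (by omega) (by omega) (by omega) k4).symm
    · exact (T_eq G c2 b2 (by omega) (by omega) (by omega) (by omega) (by omega) k5).symm
    · exact T_lt G b4 c3 (by omega) (by omega) (by omega) (by omega) k6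
    · exact (T_eq G c3 b4 (by omega) (by omega) (by omega) (by omega) (by omega) k6).symm
    · exact (T_eq G c3 b4 (by omega) (by omega) (by omega) (by omega) (by omega) k6).symm
  · rw [x3, y3]
    simp only [gsl, if_false, OfNat.ofNat_ne_zero, OfNat.ofNat_ne_one, List.mem_cons,
      List.not_mem_nil, or_false, Prod.mk.injEq] at h
    rcases h with ⟨rfl, rfl⟩ | ⟨rfl, rfl⟩ | ⟨rfl, rfl⟩ | ⟨rfl, rfl⟩ | ⟨rfl, rfl⟩ <;>
      refine ⟨by omega, fun h => ?_, fun h => ?_⟩ <;> (try (exact absurd h (by decide)))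
    · exact (T_eq G d1 c1 (by omega) (by omega) (by omega) (by omega) (by omega) k7).symm
    · exact (T_eq G d1 c1 (by omega) (by omega) (by omega) (by omega) (by omega) k7).symm
    · exact T_lt G c1 d1 (by omega) (by omega) (by omega) (by omega) k7
    · exact (T_eq G d2 c3 (by omega) (by omega) (by omega) (by omega) (by omega) k8).symm
    · exact (T_eq G d2 c3 (by omega) (by omega) (by omega) (by omega) (by omega) k8).symm

theorem gad_interpolate {I : NF} (hI : I.OK) (G : Geo I) {g : ℕ} (hg : g < 3 * I.ops.length)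
    {t u x y : ℝ} (H : ∀ s b, Fc.G I.N (gX g) (gY g) g (s, b) ∈ I.data.fcodes →
      t * G.T (gX g) s + u * G.T (gY g) s ≤ y - G.al s * x) :
    ∀ s ≤ I.N, t * G.T (gX g) s + u * G.T (gY g) s ≤ y - G.al s * x := by
  intro s hs
  obtain ⟨d, hd, h⟩ := gad_cases hg
  obtain ⟨x1, y1, x2, y2, x3, y3⟩ := gXY d
  obtain ⟨⟨a1, a2, a3⟩, ⟨b1, b2, b3, b4⟩, ⟨c1, c2, c3⟩, d1, d2⟩ := pus hd
  obtain ⟨o1, o2, o3, o4, o5, o6, o7, o8, -⟩ := NF.opd_ok hI hd
  rcases h with rfl | rfl | rfl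
  · have H' : ∀ s b, (s, b) ∈ gsl I d 0 →
        t * G.T d.pb s + u * G.T d.pa s ≤ y - G.al s * x := by
      intro s b h
      have := H s b ((Gmem hd).1 h)
      rwa [x1, y1] at this
    rw [x1, y1]
    have H0 := H' 0 true (by simp [gsl])
    have H1 := H' d.y true (by simp [gsl])
    have H2 := H' d.z false (by simp [gsl])
    have H3 := H' d.i true (by simp [gsl])
    have H4 := H' d.x true (by simp [gsl])
    have H5 := H' I.N true (by simp [gsl])
    rcases Nat.le_total s d.y with h | h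
    · exact seg G b1 a1 (by omega) (by omega) (by omega) (by omega) (by omega) H0 H1 (by omega) h
    rcases Nat.le_total s d.z with h' | h'
    · exact seg G b2 a1 (by omega) (by omega) (by omega) (by omega) (by omega) H1 H2 h h'
    rcases Nat.le_total s d.i with h | h
    · exact seg G b2 a2 (by omega) (by omega) (by omega) (by omega) (by omega) H2 H3 h' h
    rcases Nat.le_total s d.x with h' | h'
    · exact seg G b3 a2 (by omega) (by omega) (by omega) (by omega) (by omega) H3 H4 h h'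
    · exact seg G b4 a3 (by omega) (by omega) (by omega) (by omega) (by omega) H4 H5 h' hs
  · have H' : ∀ s b, (s, b) ∈ gsl I d 1 →
        t * G.T d.pb s + u * G.T d.pc s ≤ y - G.al s * x := by
      intro s b h
      have := H s b ((Gmem hd).2.1 h)
      rwa [x2, y2] at this
    rw [x2, y2]
    have H0 := H' 0 true (by simp [gsl])
    have H1 := H' d.y true (by simp [gsl])
    have H2 := H' d.i true (by simp [gsl])
    have H3 := H' d.v false (by simp [gsl])
    have H4 := H' d.x true (by simp [gsl])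
    have H5 := H' I.N true (by simp [gsl])
    rcases Nat.le_total s d.y with h | h
    · exact seg G b1 c1 (by omega) (by omega) (by omega) (by omega) (by omega) H0 H1 (by omega) h
    rcases Nat.le_total s d.i with h' | h'
    · exact seg G b2 c2 (by omega) (by omega) (by omega) (by omega) (by omega) H1 H2 h h'
    rcases Nat.le_total s d.v with h | h
    · exact seg G b3 c2 (by omega) (by omega) (by omega) (by omega) (by omega) H2 H3 h' h
    rcases Nat.le_total s d.x with h' | h'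
    · exact seg G b3 c3 (by omega) (by omega) (by omega) (by omega) (by omega) H3 H4 h h'
    · exact seg G b4 c3 (by omega) (by omega) (by omega) (by omega) (by omega) H4 H5 h' hs
  · have H' : ∀ s b, (s, b) ∈ gsl I d 2 →
        t * G.T d.pc s + u * G.T d.pd s ≤ y - G.al s * x := by
      intro s b h
      have := H s b ((Gmem hd).2.2 h)
      rwa [x3, y3] at this
    rw [x3, y3]
    have H0 := H' 0 true (by simp [gsl])
    have H1 := H' d.y true (by simp [gsl])
    have H2 := H' d.w false (by simp [gsl])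
    have H3 := H' d.v true (by simp [gsl])
    have H4 := H' I.N true (by simp [gsl])
    rcases Nat.le_total s d.y with h | h
    · exact seg G c1 d1 (by omega) (by omega) (by omega) (by omega) (by omega) H0 H1 (by omega) h
    rcases Nat.le_total s d.w with h' | h'
    · exact seg G c2 d1 (by omega) (by omega) (by omega) (by omega) (by omega) H1 H2 h h'
    rcases Nat.le_total s d.v with h | h
    · exact seg G c2 d2 (by omega) (by omega) (by omega) (by omega) (by omega) H2 H3 h' h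
    · exact seg G c3 d2 (by omega) (by omega) (by omega) (by omega) (by omega) H3 H4 h hs

theorem gad_middle {I : NF} (hI : I.OK) {g : ℕ} (hg : g < 3 * I.ops.length) :
    ∃ z i j, i < z ∧ z < j ∧ I.PU (gX g) i j ∧
      Fc.G I.N (gX g) (gY g) g (z, false) ∈ I.data.fcodes ∧
      Fc.G I.N (gX g) (gY g) g (i, true) ∈ I.data.fcodes ∧
      Fc.G I.N (gX g) (gY g) g (j, true) ∈ I.data.fcodes ∧
      ∀ s, Fc.G I.N (gX g) (gY g) g (s, false) ∈ I.data.fcodes → s = z := by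
  obtain ⟨d, hd, h⟩ := gad_cases hg
  obtain ⟨x1, y1, x2, y2, x3, y3⟩ := gXY d
  obtain ⟨⟨a1, a2, a3⟩, ⟨b1, b2, b3, b4⟩, ⟨c1, c2, c3⟩, d1, d2⟩ := pus hd
  obtain ⟨o1, o2, o3, o4, o5, o6, o7, o8, -⟩ := NF.opd_ok hI hd
  rcases h with rfl | rfl | rfl
  · refine ⟨d.z, d.y, d.i, by omega, by omega, by rw [x1]; exact b2,
      (Gmem hd).1 (by simp [gsl]), (Gmem hd).1 (by simp [gsl]), (Gmem hd).1 (by simp [gsl]),
      fun s h => ?_⟩
    have := (memG' hI hd).1 h
    simpa [gsl] using this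
  · refine ⟨d.v, d.i, d.x, by omega, by omega, by rw [x2]; exact b3,
      (Gmem hd).2.1 (by simp [gsl]), (Gmem hd).2.1 (by simp [gsl]), (Gmem hd).2.1 (by simp [gsl]),
      fun s h => ?_⟩
    have := (memG' hI hd).2.1 h
    simpa [gsl] using this
  · refine ⟨d.w, d.y, d.v, by omega, by omega, by rw [x3]; exact c2,
      (Gmem hd).2.2 (by simp [gsl]), (Gmem hd).2.2 (by simp [gsl]), (Gmem hd).2.2 (by simp [gsl]),
      fun s h => ?_⟩
    have := (memG' hI hd).2.2 h
    simpa [gsl] using this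

end Pool.Agent.Helper87.G4
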