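import Pool.Agent.Helper22.G4.Poly

/-! # G4-T9: parsing of edge lists in polynomial time -/

namespace Pool.Agent.Helper87.G4

open Pool.Agent.Helper22.G4 Pool.Agent.Helper89 Pool.Agent.Helper91.PolyTime

/-- reading one symbol: the state is the current number and the list of the finished numbers -/
def pStep (s : ℕ × List ℕ) (b : Bool) : ℕ × List ℕ :=
  bif b then (s.1 + 1, s.2) else (0, s.2 ++ [s.1])

theorem pStep_rep (k c : ℕ) (acc : List ℕ) :
    (List.replicate k true).foldl pStep (c, acc) = (c + k, acc) := by
  induction k generalizing c with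
  | zero => rfl
  | succ k ih =>
    rw [List.replicate_succ, List.foldl_cons]
    have : pStep (c, acc) true = (c + 1, acc) := rfl
    rw [this, ih]
    congr 1
    omega

theorem pStep_unary (k : ℕ) (acc : List ℕ) :
    (unary k).foldl pStep (0, acc) = (0, acc ++ [k]) := by
  rw [unary, List.foldl_append, pStep_rep, Nat.zero_add]
  rfl

theorem pStep_flatMap {n : ℕ} (E : List (Fin n × Fin n)) (acc : List ℕ) :
    (E.flatMap fun e => unary e.1 ++ unary e.2).foldl pStep (0, acc) =
      (0, acc ++ E.flatMap fun e => [(e.1 : ℕ), (e.2 : ℕ)]) := by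
  induction E generalizing acc with
  | nil => simp
  | cons e E ih =>
    rw [List.flatMap_cons, List.foldl_append, List.foldl_append, pStep_unary, pStep_unary, ih,
      List.flatMap_cons]
    simp

/-- size of the state -/
theorem pStep_size (t : List Bool) : ∀ s : ℕ × List ℕ,
    2 * (t.foldl pStep s).1 + (PEnc.enc (t.foldl pStep s).2).length ≤
      2 * s.1 + (PEnc.enc s.2).length + 2 * t.length := by
  induction t with
  | nil => intro s; simp
  | cons b t ih =>
    intro s
    rw [List.foldl_cons]
    refine (ih _).trans ?_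
    cases b
    · have : pStep s false = (0, s.2 ++ [s.1]) := rfl
      rw [this, length_enc_append, length_enc_cons, length_enc_nat, enc_nil]
      simp only [List.length_nil, List.length_cons]
      omega
    · have : pStep s true = (s.1 + 1, s.2) := rfl
      rw [this]
      simp only [List.length_cons]
      omega

theorem ptf_pStep : PTF fun p : Str × (ℕ × List ℕ) × Bool => pStep p.2.1 p.2.2 :=
  PTF.cond PTF.id.snd.snd
    (PTF.pair (PTF.succ PTF.id.snd.fst.fst) PTF.id.snd.fst.snd)
    (PTF.pair (PTF.const 0)
      (PTF.append PTF.id.snd.fst.snd (PTF.cons PTF.id.snd.fst.fst (PTF.const []))))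

/-- the numbers of a string -/
def nums (x : Str) : ℕ × List ℕ := x.toList.foldl pStep (0, [])

theorem ptf_nums : PTF nums := by
  refine PTF.foldl (l := fun x : Str => x.toList) (g := fun _ => ((0, []) : ℕ × List ℕ))
    (F := fun _ s b => pStep s b) (PTF.strToList PTF.id) (PTF.const _) ptf_pStep
    (2 * Polynomial.X + 1) ?_
  intro a t ht
  change (PEnc.enc (t.foldl pStep (0, []))).length ≤ _
  rw [← Prod.mk.eta (p := t.foldl pStep (0, [])), length_enc_prod, length_enc_nat]
  have h := pStep_size t (0, [])
  rw [enc_nil] at h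
  have h2 := ht.length_le
  have h3 : a.toList.length = (PEnc.enc a).length := rfl
  simp only [Polynomial.eval_add, Polynomial.eval_mul, Polynomial.eval_one,
    Polynomial.eval_ofNat, Polynomial.eval_X]
  simp only [List.length_nil] at h
  omega

/-- pairing up: the state is the first half of the current pair and the list of the pairs -/
def qStep (s : Option ℕ × List (ℕ × ℕ)) (b : ℕ) : Option ℕ × List (ℕ × ℕ) :=
  match s.1 with
  | none => (some b, s.2)
  | some a => (none, s.2 ++ [(a, b)])

theorem qStep_flatMap {n : ℕ} (E : List (Fin n × Fin n)) (acc : List (ℕ × ℕ)) :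
    (E.flatMap fun e => [(e.1 : ℕ), (e.2 : ℕ)]).foldl qStep (none, acc) =
      (none, acc ++ E.map fun e => ((e.1 : ℕ), (e.2 : ℕ))) := by
  induction E generalizing acc with
  | nil => simp
  | cons e E ih =>
    rw [List.flatMap_cons, List.foldl_append]
    have : [(e.1 : ℕ), (e.2 : ℕ)].foldl qStep (none, acc) = (none, acc ++ [((e.1 : ℕ), (e.2 : ℕ))]) :=
      rfl
    rw [this, ih, List.map_cons]
    simp

/-- weight of the pending number -/
def ow : Option ℕ → ℕ
  | none => 0
  | some a => 4 * a + 2

theorem qStep_size (t : List ℕ) : ∀ s : Option ℕ × List (ℕ × ℕ),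
    ow (t.foldl qStep s).1 + (PEnc.enc (t.foldl qStep s).2).length ≤
      ow s.1 + (PEnc.enc s.2).length + 2 * (PEnc.enc t).length := by
  induction t with
  | nil => intro s; simp
  | cons b t ih =>
    rintro ⟨o, l⟩
    rw [List.foldl_cons]
    refine (ih _).trans ?_
    rw [length_enc_cons, length_enc_nat]
    cases o with
    | none =>
      have : qStep (none, l) b = (some b, l) := rfl
      rw [this]
      simp only [ow]
      omega
    | some a =>
      have : qStep (some a, l) b = (none, l ++ [(a, b)]) := rfl
      rw [this, length_enc_append, length_enc_cons, length_enc_prod, length_enc_nat,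
        length_enc_nat, enc_nil]
      simp only [ow, List.length_nil]
      omega

theorem ptf_qStep : PTF fun p : List ℕ × (Option ℕ × List (ℕ × ℕ)) × ℕ => qStep p.2.1 p.2.2 := by
  refine (PTF.optCase (o := fun p : List ℕ × (Option ℕ × List (ℕ × ℕ)) × ℕ => p.2.1.1)
    (n := fun p => (some p.2.2, p.2.1.2)) (s := fun p a => (none, p.2.1.2 ++ [(a, p.2.2)]))
    PTF.id.snd.fst.fst (PTF.pair (PTF.some PTF.id.snd.snd) PTF.id.snd.fst.snd)
    (PTF.pair (PTF.const none) (PTF.append PTF.id.fst.snd.fst.snd
      (PTF.cons (PTF.pair PTF.id.snd PTF.id.fst.snd.snd) (PTF.const []))))).of_eq ?_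
  rintro ⟨l, ⟨o, m⟩, b⟩
  cases o <;> rfl

/-- the pairs of a list of numbers -/
def pairs (l : List ℕ) : Option ℕ × List (ℕ × ℕ) := l.foldl qStep (none, [])

theorem ptf_pairs : PTF pairs := by
  refine PTF.foldl (l := fun x : List ℕ => x)
    (g := fun _ => ((none, []) : Option ℕ × List (ℕ × ℕ)))
    (F := fun _ s b => qStep s b) PTF.id (PTF.const _) ptf_qStep
    (2 * Polynomial.X + 1) ?_
  intro a t ht
  change (PEnc.enc (t.foldl qStep (none, []))).length ≤ _
  rw [← Prod.mk.eta (p := t.foldl qStep (none, [])), length_enc_prod]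
  have h := qStep_size t (none, [])
  have h0 : ow (none, ([] : List (ℕ × ℕ))).1 = 0 := rfl
  rw [enc_nil, h0] at h
  have h2 : (PEnc.enc t).length ≤ (PEnc.enc a).length := by
    obtain ⟨u, hu⟩ := ht
    rw [← hu, length_enc_append]
    omega
  have h3 : 2 * (PEnc.enc (t.foldl qStep (none, [])).1).length ≤
      ow (t.foldl qStep (none, [])).1 := by
    cases (t.foldl qStep (none, [])).1 with
    | none => rw [enc_none]; simp [ow]
    | some a => rw [enc_some, List.length_cons, length_enc_nat]; simp only [ow]; omega
  simp only [Polynomial.eval_add, Polynomial.eval_mul, Polynomial.eval_one,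
    Polynomial.eval_ofNat, Polynomial.eval_X]
  simp only [List.length_nil] at h
  omega

/-- the edge list of a string -/
def parse (x : Str) : ℕ × List (ℕ × ℕ) :=
  match (nums x).2 with
  | [] => (0, [])
  | n :: l => (n, (pairs l).2)

theorem ptf_parse : PTF parse := by
  refine (PTF.listCase (o := fun x : Str => (nums x).2) (n := fun _ => ((0, []) : ℕ × List (ℕ × ℕ)))
    (s := fun _ n l => (n, (pairs l).2)) ptf_nums.snd (PTF.const _)
    (PTF.pair PTF.id.snd.fst (PTF.snd (ptf_pairs.comp PTF.id.snd.snd)))).of_eq ?_
  intro x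
  unfold parse
  cases (nums x).2 <;> rfl

theorem parse_enc (G : EdgeList) : parse (Str.ofList G.enc) = (G.n, natEdges G) := by
  have h : nums (Str.ofList G.enc) =
      (0, G.n :: G.edges.flatMap fun e => [(e.1 : ℕ), (e.2 : ℕ)]) := by
    change (G.enc).foldl pStep (0, []) = _
    rw [EdgeList.enc, List.foldl_append, pStep_unary, pStep_flatMap]
    simp
  rw [parse, h]
  change (G.n, (pairs (G.edges.flatMap fun e => [(e.1 : ℕ), (e.2 : ℕ)])).2) = _
  rw [pairs, qStep_flatMap]
  simp [natEdges]

/-- G4-T9 -/
theorem pt_parse : PT (fun G : EdgeList => G.enc) (fun G => PEnc.enc (G.n, natEdges G)) := by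
  have h := PT.reindex ptf_parse (fun G : EdgeList => Str.ofList G.enc)
  have he : (fun G : EdgeList => PEnc.enc (parse (Str.ofList G.enc))) =
      fun G => PEnc.enc (G.n, natEdges G) := by
    funext G
    rw [parse_enc]
  rw [he] at h
  exact h

end Pool.Agent.Helper87.G4
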